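import Mathlib

/-! SLX/INV (helper608), part 1: counting tuples which are independent modulo a vector. -/

set_option autoImplicit false
set_option linter.unusedSectionVars false

open scoped Classical

namespace Pool.Agent.N608.SLX

open Finset

section count

variable {M : Type} [AddCommGroup M] [Module (ZMod 2) M] [Fintype M]

/-- `w` and the vectors `y a` are linearly independent -/
def LI {n : ℕ} (w : M) (y : Fin n → M) : Prop :=
  LinearIndependent (ZMod 2) (Fin.cons w y : Fin (n + 1) → M)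

theorem card_sub (L : Submodule (ZMod 2) M) :
    (univ.filter fun v : M => v ∈ L).card = 2 ^ Module.finrank (ZMod 2) L := by
  have h1 := Module.card_eq_pow_finrank (K := ZMod 2) (V := L)
  rw [ZMod.card] at h1
  rw [← h1]
  rw [Fintype.card_subtype]

theorem card_span {n : ℕ} {z : Fin n → M} (hz : LinearIndependent (ZMod 2) z) :
    (univ.filter fun v : M => v ∈ Submodule.span (ZMod 2) (Set.range z)).card = 2 ^ n := by
  rw [card_sub, finrank_span_eq_card hz, Fintype.card_fin]

theorem LI_snoc {n : ℕ} {w : M} {y : Fin n → M} {v : M} :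
    LI w (Fin.snoc (α := fun _ => M) y v : Fin (n + 1) → M) ↔
      LI w y ∧ v ∉ Submodule.span (ZMod 2) (Set.range (Fin.cons w y : Fin (n + 1) → M)) := by
  unfold LI
  rw [Fin.cons_snoc_eq_snoc_cons]
  exact linearIndependent_finSnoc

theorem span_le {n : ℕ} {L : Submodule (ZMod 2) M} {w : M} (hw : w ∈ L) {y : Fin n → M}
    (hy : ∀ a, y a ∈ L) :
    Submodule.span (ZMod 2) (Set.range (Fin.cons w y : Fin (n + 1) → M)) ≤ L := by
  rw [Submodule.span_le]
  rintro _ ⟨i, rfl⟩
  refine Fin.cases ?_ (fun a => ?_) i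
  · exact hw
  · exact hy a

theorem count_ext {n : ℕ} (L : Submodule (ZMod 2) M) {w : M} (hw : w ∈ L)
    (P : (Fin n → M) → Prop) :
    (univ.filter fun y : Fin (n + 1) → M => (∀ a, y a ∈ L) ∧ LI w y ∧
      P (fun a => y a.castSucc)).card =
    (univ.filter fun y : Fin n → M => (∀ a, y a ∈ L) ∧ LI w y ∧ P y).card *
      ((univ.filter fun v : M => v ∈ L).card - 2 ^ (n + 1)) := by
  have hf : ∀ (y : Fin n → M) (v : M), (fun a : Fin n =>
      (Fin.snoc (α := fun _ => M) y v : Fin (n + 1) → M) a.castSucc) = y := by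
    intro y v
    funext a
    simp
  have hg : ∀ z : Fin (n + 1) → M, Fin.snoc (α := fun _ => M) (fun a => z a.castSucc)
      (z (Fin.last n)) = z := fun z => Fin.snoc_init_self z
  rw [card_eq_sum_card_fiberwise (f := fun z : Fin (n + 1) → M => fun a : Fin n => z a.castSucc)
    (t := univ.filter fun y : Fin n → M => (∀ a, y a ∈ L) ∧ LI w y ∧ P y)]
  · rw [sum_const_nat (m := (univ.filter fun v : M => v ∈ L).card - 2 ^ (n + 1))]
    intro y hy
    obtain ⟨-, hyL, hyI, hyP⟩ := mem_filter.1 hy
    have h1 : (filter (fun z : Fin (n + 1) → M => (fun a : Fin n => z a.castSucc) = y)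
        (univ.filter fun y : Fin (n + 1) → M => (∀ a, y a ∈ L) ∧ LI w y ∧
          P (fun a => y a.castSucc))) =
        ((univ.filter fun v : M => v ∈ L) \ (univ.filter fun v : M => v ∈
          Submodule.span (ZMod 2) (Set.range (Fin.cons w y : Fin (n + 1) → M)))).image
          (fun v => (Fin.snoc (α := fun _ => M) y v : Fin (n + 1) → M)) := by
      ext z
      simp only [mem_filter, mem_univ, true_and, mem_image, mem_sdiff]
      constructor
      · rintro ⟨⟨hz1, hz2, hz3⟩, rfl⟩
        refine ⟨z (Fin.last n), ⟨hz1 _, ?_⟩, hg z⟩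
        rw [← hg z] at hz2
        exact (LI_snoc.1 hz2).2
      · rintro ⟨v, ⟨hv1, hv2⟩, rfl⟩
        refine ⟨⟨fun a => ?_, LI_snoc.2 ⟨hyI, hv2⟩, ?_⟩, hf y v⟩
        · refine Fin.lastCases ?_ (fun b => ?_) a
          · simpa using hv1
          · simpa using hyL b
        · rw [hf]; exact hyP
    rw [h1, card_image_of_injective, card_sdiff_of_subset, card_span hyI]
    · intro v hv
      rw [mem_filter] at hv ⊢
      exact ⟨hv.1, span_le hw hyL hv.2⟩
    · intro v v' hvv
      have := congrArg (fun z : Fin (n + 1) → M => z (Fin.last n)) hvv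
      simpa using this
  · intro z hz
    obtain ⟨-, hz1, hz2, hz3⟩ := mem_filter.1 (mem_coe.1 hz)
    rw [mem_coe, mem_filter]
    refine ⟨mem_univ _, fun a => hz1 _, ?_, hz3⟩
    rw [← hg z] at hz2
    exact (LI_snoc.1 hz2).1

/-- the number of all the tuples -/
theorem count_all (L : Submodule (ZMod 2) M) {w : M} (hw : w ∈ L) (hw0 : w ≠ 0) (n : ℕ) :
    (univ.filter fun y : Fin n → M => (∀ a, y a ∈ L) ∧ LI w y).card =
      ∏ l ∈ range n, ((univ.filter fun v : M => v ∈ L).card - 2 ^ (l + 1)) := by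
  induction n with
  | zero =>
    rw [prod_range_zero, filter_true_of_mem]
    · simp
    · intro y _
      refine ⟨fun a => a.elim0, ?_⟩
      unfold LI
      rw [Fintype.linearIndependent_iff]
      intro g hg i
      rw [Fin.sum_univ_succ, Fin.cons_zero] at hg
      have h1 : g 0 • w = 0 := by simpa using hg
      have h2 : g 0 = 0 := (smul_eq_zero.1 h1).resolve_right hw0
      have h3 : i = 0 := Fin.ext (by have := i.2; simp only [Fin.val_zero]; omega)
      rw [h3, h2]
  | succ n ih =>
    have h := count_ext L hw (fun _ : Fin n → M => True)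
    simp only [and_true] at h
    rw [h, ih, prod_range_succ]

end count

/-! ### Real numbers -/

theorem prod_real (k r : ℕ) (hr : r + 1 ≤ k) (i : ℕ) :
    ((∏ l ∈ range i, (2 ^ k - 2 ^ (r + l + 1)) : ℕ) : ℝ) =
      2 ^ ((r + 1) * i) * ∏ l ∈ range i, ((2 : ℝ) ^ (k - (r + 1)) - 2 ^ l) := by
  have h2 : (2 : ℝ) ^ k = 2 ^ (r + 1) * 2 ^ (k - (r + 1)) := by
    rw [← pow_add]; congr 1; omega
  induction i with
  | zero => simp
  | succ i ih =>
    rw [prod_range_succ, prod_range_succ, Nat.cast_mul, ih]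
    rcases Nat.lt_or_ge k (r + i + 1) with h | h
    · -- a factor vanishes
      have hz : ∏ l ∈ range i, ((2 : ℝ) ^ (k - (r + 1)) - 2 ^ l) = 0 := by
        apply prod_eq_zero (i := k - (r + 1))
        · rw [mem_range]; omega
        · rw [sub_self]
      rw [hz]; ring
    · have h3 : 2 ^ (r + i + 1) ≤ 2 ^ k := Nat.pow_le_pow_right (by norm_num) h
      rw [Nat.cast_sub h3]
      push_cast
      have h4 : (2 : ℝ) ^ (r + i + 1) = 2 ^ (r + 1) * 2 ^ i := by rw [← pow_add]; congr 1; omega
      rw [h2, h4, mul_add, pow_add, mul_one]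
      ring

/-- the product of the `2 ^ (s + 1) - 1` -/
theorem alt_sum (qf : ℕ → ℝ) (_hq0 : qf 0 = 1) (hq : ∀ i, qf (i + 1) = qf i * (2 ^ (i + 1) - 1))
    (hpos : ∀ i, 0 < qf i) (X : ℝ) (m : ℕ) :
    ∑ i ∈ range (m + 1), (-1) ^ i * ((∏ l ∈ range i, (X - 2 ^ l)) / qf i) =
      (-1) ^ m * ((∏ l ∈ range m, (X - 2 ^ (l + 1))) / qf m) := by
  induction m with
  | zero => simp
  | succ m ih =>
    rw [sum_range_succ, ih, prod_range_succ' (fun l => X - 2 ^ l) m, prod_range_succ, hq m]
    have h1 := (hpos m).ne'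
    have h2 : (0 : ℝ) < 2 ^ (m + 1) - 1 := by
      have : (1 : ℝ) < 2 ^ (m + 1) := one_lt_pow₀ (by norm_num) (by omega)
      linarith
    have h3 := h2.ne'
    field_simp
    ring

end Pool.Agent.N608.SLX
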