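import Pool.Agent.N637.SLX.Stm
import Pool.Agent.N608.SLX.INV1

/-! SLX/INV (helper608): truncated inclusion and exclusion for the tuples of the left kernel. -/

set_option autoImplicit false
set_option linter.unusedSectionVars false

open scoped Classical

namespace Pool.Agent.N608.SLX

open Finset Pool.Agent.N637.SLX

section

variable {V : Type} [Fintype V]

/-- the left kernel as a subspace -/
def Lk (N : V → V → ZMod 2) : Submodule (ZMod 2) (V → ZMod 2) where
  carrier := {y | IsLk N y}
  add_mem' := by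
    intro y z hy hz p
    have h := congrArg₂ (· + ·) (hy p) (hz p)
    simp only [add_zero] at h
    rw [← sum_add_distrib] at h
    rw [← h]
    apply sum_congr rfl
    intro q _
    simp only [Pi.add_apply]
    ring
  zero_mem' := by
    intro p
    simp
  smul_mem' := by
    intro c y hy p
    have h := congrArg (fun x => c * x) (hy p)
    simp only [mul_zero, mul_sum] at h
    rw [← h]
    apply sum_congr rfl
    intro q _
    simp only [Pi.smul_apply, smul_eq_mul]
    ring

theorem mem_Lk {N : V → V → ZMod 2} {y : V → ZMod 2} : y ∈ Lk N ↔ IsLk N y := Iff.rfl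

theorem Bf_symm (e y z : V → ZMod 2) : Bf e y z = Bf e z y := by
  unfold Bf
  rw [mul_comm]
  congr 1
  apply sum_congr rfl
  intro p _
  ring

theorem Bf_add (e y y' z : V → ZMod 2) : Bf e (y + y') z = Bf e y z + Bf e y' z := by
  unfold Bf
  have h1 : ∑ p, e p * (y + y') p = ∑ p, e p * y p + ∑ p, e p * y' p := by
    rw [← sum_add_distrib]
    exact sum_congr rfl fun p _ => by simp only [Pi.add_apply]; ring
  have h2 : ∑ p, e p * (y + y') p * z p = ∑ p, e p * y p * z p + ∑ p, e p * y' p * z p := by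
    rw [← sum_add_distrib]
    exact sum_congr rfl fun p _ => by simp only [Pi.add_apply]; ring
  rw [h1, h2]
  ring

theorem Bf_smul (e : V → ZMod 2) (c : ZMod 2) (y z : V → ZMod 2) :
    Bf e (c • y) z = c * Bf e y z := by
  unfold Bf
  have h1 : ∑ p, e p * (c • y) p = c * ∑ p, e p * y p := by
    rw [mul_sum]
    exact sum_congr rfl fun p _ => by simp only [Pi.smul_apply, smul_eq_mul]; ring
  have h2 : ∑ p, e p * (c • y) p * z p = c * ∑ p, e p * y p * z p := by
    rw [mul_sum]
    exact sum_congr rfl fun p _ => by simp only [Pi.smul_apply, smul_eq_mul]; ring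
  rw [h1, h2]
  ring

/-- the form, linear in the first variable -/
def Bl (e z : V → ZMod 2) : (V → ZMod 2) →ₗ[ZMod 2] ZMod 2 where
  toFun y := Bf e y z
  map_add' y y' := Bf_add e y y' z
  map_smul' c y := by rw [Bf_smul]; rfl

theorem Bl_apply (e y z : V → ZMod 2) : Bl e z y = Bf e y z := rfl

theorem Ind_iff {n : ℕ} {w : V → ZMod 2} (hw : w ≠ 0) (y : Fin n → V → ZMod 2) :
    Ind w y ↔ LI w y := by
  unfold LI
  rw [Fintype.linearIndependent_iff]
  constructor
  · intro h g hg
    rw [Fin.sum_univ_succ] at hg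
    simp only [Fin.cons_zero, Fin.cons_succ] at hg
    have h1 := h (fun a => g a.succ) (g 0) (fun p => by
      have h2 := congrFun hg p
      simp only [Pi.add_apply, Pi.smul_apply, smul_eq_mul, Finset.sum_apply, Pi.zero_apply] at h2
      exact (CharTwo.add_eq_zero.1 h2).symm)
    have h3 : g 0 • w = 0 := by
      have : ∑ x : Fin n, g x.succ • y x = 0 :=
        sum_eq_zero fun a _ => by rw [h1 a, zero_smul]
      rw [this, add_zero] at hg
      exact hg
    have h4 : g 0 = 0 := (smul_eq_zero.1 h3).resolve_right hw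
    intro i
    exact Fin.cases h4 h1 i
  · intro h c d hcd a
    have h1 := h (Fin.cons d c) (by
      rw [Fin.sum_univ_succ]
      simp only [Fin.cons_zero, Fin.cons_succ]
      funext p
      simp only [Pi.add_apply, Pi.smul_apply, smul_eq_mul, Finset.sum_apply, Pi.zero_apply]
      rw [hcd p]
      exact CharTwo.add_self_eq_zero _) a.succ
    simpa using h1

theorem Tn_eq (w e : V → ZMod 2) (N : V → V → ZMod 2) (hw : w ≠ 0) (r i j : ℕ) :
    Tn w e N r i j = (univ.filter fun y : Fin (r + i) → V → ZMod 2 => (∀ a, y a ∈ Lk N) ∧ LI w y ∧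
      Cor (fun a b : Fin r => Bf e (y (Fin.castAdd i a)) (y (Fin.castAdd i b))) j).card := by
  unfold Tn
  congr 1
  apply filter_congr
  intro y _
  rw [Ind_iff hw]
  rfl

theorem Tn_succ (w e : V → ZMod 2) (N : V → V → ZMod 2) (hw : w ≠ 0) (hwL : w ∈ Lk N) (r i j : ℕ) :
    Tn w e N r (i + 1) j = Tn w e N r i j *
      ((univ.filter fun v : V → ZMod 2 => v ∈ Lk N).card - 2 ^ (r + i + 1)) := by
  rw [Tn_eq w e N hw, Tn_eq w e N hw]
  exact count_ext (Lk N) hwL (fun y : Fin (r + i) → V → ZMod 2 =>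
    Cor (fun a b : Fin r => Bf e (y (Fin.castAdd i a)) (y (Fin.castAdd i b))) j)

theorem Tn_prod (w e : V → ZMod 2) (N : V → V → ZMod 2) (hw : w ≠ 0) (hwL : w ∈ Lk N) (r i j : ℕ) :
    Tn w e N r i j = Tn w e N r 0 j *
      ∏ l ∈ range i, ((univ.filter fun v : V → ZMod 2 => v ∈ Lk N).card - 2 ^ (r + l + 1)) := by
  induction i with
  | zero => rw [prod_range_zero, mul_one]
  | succ i ih => rw [Tn_succ w e N hw hwL, ih, prod_range_succ, mul_assoc]

theorem card_bas {n : ℕ} {L : Submodule (ZMod 2) (V → ZMod 2)} {w : V → ZMod 2} (hw : w ∈ L)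
    {y : Fin n → V → ZMod 2} (hy : ∀ a, y a ∈ L) (hI : LI w y) :
    2 ^ (n + 1) ≤ (univ.filter fun v : V → ZMod 2 => v ∈ L).card := by
  rw [← card_span hI]
  apply card_le_card
  intro v hv
  rw [mem_filter] at hv ⊢
  exact ⟨hv.1, span_le hw hy hv.2⟩

/-- the radical and the Gram matrix of a basis -/
theorem rad_card {r : ℕ} {w e : V → ZMod 2} {N : V → V → ZMod 2} (hrad : IsRad N e w)
    {y : Fin r → V → ZMod 2} (hy : ∀ a, y a ∈ Lk N) (hI : LI w y)
    (hL : (univ.filter fun v : V → ZMod 2 => v ∈ Lk N).card = 2 ^ (r + 1)) :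
    (univ.filter fun v : V → ZMod 2 => IsRad N e v).card =
      2 * (univ.filter fun x : Fin r → ZMod 2 =>
        ∀ a, ∑ b, Bf e (y a) (y b) * x b = 0).card := by
  -- coordinates
  let φ : ZMod 2 × (Fin r → ZMod 2) → V → ZMod 2 := fun z => z.1 • w + ∑ a, z.2 a • y a
  have hφL : ∀ z, φ z ∈ Lk N := fun z =>
    (Lk N).add_mem ((Lk N).smul_mem _ hrad.1) (Submodule.sum_mem _ fun a _ =>
      (Lk N).smul_mem _ (hy a))
  have hinj : Function.Injective φ := by
    intro z z' h
    have hI' := Fintype.linearIndependent_iff.1 hI (Fin.cons (z.1 - z'.1) (z.2 - z'.2)) (by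
      rw [Fin.sum_univ_succ]
      simp only [Fin.cons_zero, Fin.cons_succ, Pi.sub_apply, sub_smul, sum_sub_distrib]
      have h' : z.1 • w + ∑ a, z.2 a • y a = z'.1 • w + ∑ a, z'.2 a • y a := h
      have h2 : z.1 • w - z'.1 • w + (∑ a, z.2 a • y a - ∑ a, z'.2 a • y a) =
        (z.1 • w + ∑ a, z.2 a • y a) - (z'.1 • w + ∑ a, z'.2 a • y a) := by abel
      rw [h2, h', sub_self])
    apply Prod.ext
    · have := hI' 0
      simpa [sub_eq_zero] using this
    · funext a
      have := hI' a.succ
      simpa [sub_eq_zero] using this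
  have himg : (univ : Finset (ZMod 2 × (Fin r → ZMod 2))).image φ =
      univ.filter fun v : V → ZMod 2 => v ∈ Lk N := by
    apply eq_of_subset_of_card_le
    · intro v hv
      obtain ⟨z, -, rfl⟩ := mem_image.1 hv
      exact mem_filter.2 ⟨mem_univ _, hφL z⟩
    · rw [hL, card_image_of_injective _ hinj, card_univ, Fintype.card_prod, Fintype.card_fun,
        ZMod.card, Fintype.card_fin, pow_succ, mul_comm]
  have hsurj : ∀ v, IsLk N v → ∃ z, φ z = v := by
    intro v hv
    have : v ∈ (univ : Finset (ZMod 2 × (Fin r → ZMod 2))).image φ := by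
      rw [himg]; exact mem_filter.2 ⟨mem_univ _, hv⟩
    obtain ⟨z, -, hz⟩ := mem_image.1 this
    exact ⟨z, hz⟩
  have hB : ∀ (z : ZMod 2 × (Fin r → ZMod 2)) (u : V → ZMod 2), IsLk N u →
      Bf e (φ z) u = ∑ a, z.2 a * Bf e (y a) u := by
    intro z u hu
    rw [← Bl_apply]
    show Bl e u (z.1 • w + ∑ a, z.2 a • y a) = _
    rw [map_add, map_smul, Bl_apply, hrad.2 u hu, smul_zero, zero_add, map_sum]
    exact sum_congr rfl fun a _ => by rw [map_smul, Bl_apply, smul_eq_mul]
  have hrad' : (univ.filter fun v : V → ZMod 2 => IsRad N e v) =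
      ((univ : Finset (ZMod 2)) ×ˢ (univ.filter fun x : Fin r → ZMod 2 =>
        ∀ a, ∑ b, Bf e (y a) (y b) * x b = 0)).image φ := by
    ext v
    simp only [mem_filter, mem_univ, true_and, mem_image, mem_product, Prod.exists]
    constructor
    · intro hv
      obtain ⟨z, rfl⟩ := hsurj v hv.1
      refine ⟨z.1, z.2, fun a => ?_, rfl⟩
      have h1 := hv.2 (y a) (hy a)
      rw [hB z (y a) (hy a)] at h1
      rw [← h1]
      exact sum_congr rfl fun b _ => by rw [Bf_symm e (y a) (y b), mul_comm]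
    · rintro ⟨d, x, hx, rfl⟩
      refine ⟨hφL _, fun u hu => ?_⟩
      obtain ⟨z, rfl⟩ := hsurj u hu
      rw [Bf_symm, hB z _ (hφL _)]
      apply sum_eq_zero
      intro a _
      rw [Bf_symm, hB (d, x) (y a) (hy a)]
      have h1 : ∑ b, x b * Bf e (y b) (y a) = 0 := by
        rw [← hx a]
        exact sum_congr rfl fun b _ => by rw [Bf_symm e (y a) (y b), mul_comm]
      show z.2 a * ∑ b, x b * Bf e (y b) (y a) = 0
      rw [h1, mul_zero]
  rw [hrad', card_image_of_injective _ hinj, card_product, card_univ, ZMod.card]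

theorem prod_gl (r : ℕ) : ∏ l ∈ range r, (2 ^ (r + 1) - 2 ^ (l + 1)) = 2 ^ r * gl r := by
  unfold gl
  have h : ∀ l ∈ range r, 2 ^ (r + 1) - 2 ^ (l + 1) = 2 * (2 ^ r - 2 ^ l) := by
    intro l _
    rw [pow_succ, pow_succ, Nat.mul_sub, mul_comm 2 (2 ^ r), mul_comm 2 (2 ^ l)]
  rw [prod_congr rfl h, prod_mul_distrib, prod_const, card_range]

/-- the first number in the critical case -/
theorem Tn_crit {w e : V → ZMod 2} {N : V → V → ZMod 2} (hw : w ≠ 0) (hrad : IsRad N e w) {r j : ℕ}
    (hL : (univ.filter fun v : V → ZMod 2 => v ∈ Lk N).card = 2 ^ (r + 1)) :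
    Tn w e N r 0 j = if (univ.filter fun v : V → ZMod 2 => IsRad N e v).card = 2 ^ (j + 1)
      then 2 ^ r * gl r else 0 := by
  rw [Tn_eq w e N hw]
  have key : ∀ y : Fin r → V → ZMod 2, (∀ a, y a ∈ Lk N) → LI w y →
      (Cor (fun a b : Fin r => Bf e (y a) (y b)) j ↔
        (univ.filter fun v : V → ZMod 2 => IsRad N e v).card = 2 ^ (j + 1)) := by
    intro y hy hI
    rw [rad_card hrad hy hI hL, pow_succ, mul_comm (2 ^ j) 2]
    unfold Cor
    constructor
    · intro h; rw [h]
    · intro h; exact Nat.eq_of_mul_eq_mul_left (by norm_num) h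
  have hall := count_all (Lk N) (w := w) hrad.1 hw r
  rw [hL, prod_gl] at hall
  split_ifs with h
  · rw [← hall]
    congr 1
    apply filter_congr
    intro y _
    constructor
    · rintro ⟨h1, h2, -⟩
      exact ⟨h1, h2⟩
    · rintro ⟨h1, h2⟩
      exact ⟨h1, h2, (key y h1 h2).2 h⟩
  · rw [card_eq_zero]
    apply filter_eq_empty_iff.2
    rintro y - ⟨h1, h2, h3⟩
    exact h ((key y h1 h2).1 h3)

end

theorem gl_pos (r : ℕ) : 0 < gl r := by
  unfold gl
  apply prod_pos
  intro i hi
  have := Nat.pow_lt_pow_right (show 1 < 2 by norm_num) (mem_range.1 hi)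
  omega

theorem qf_succ (i : ℕ) : qf (i + 1) = qf i * (2 ^ (i + 1) - 1) := by
  unfold qf
  rw [prod_range_succ]

theorem qf_zero : qf 0 = 1 := by
  unfold qf
  rw [prod_range_zero]

theorem two_pow_sub (i : ℕ) : (0 : ℝ) < 2 ^ (i + 1) - 1 := by
  have : (1 : ℝ) < 2 ^ (i + 1) := one_lt_pow₀ (by norm_num) (by omega)
  linarith

theorem qf_pos (i : ℕ) : 0 < qf i := by
  induction i with
  | zero => rw [qf_zero]; exact one_pos
  | succ i ih => rw [qf_succ]; exact mul_pos ih (two_pow_sub i)

theorem cf_eq (r i : ℕ) : cf r i = (2 ^ r * (gl r : ℝ)) * (2 ^ ((r + 1) * i) * qf i) := by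
  unfold cf
  rw [show (r + 1) * i = r * i + i by ring, pow_add, pow_add]
  ring

theorem cf_pos (r i : ℕ) : 0 < cf r i := by
  rw [cf_eq]
  have h1 : (0 : ℝ) < gl r := by exact_mod_cast gl_pos r
  have h2 := qf_pos i
  positivity

theorem t_INV : S_INV := by
  intro V _ w e N hw hrad r j m
  have hwL : w ∈ Lk N := hrad.1
  set k := Module.finrank (ZMod 2) (Lk N) with hk
  have hLk : (univ.filter fun v : V → ZMod 2 => v ∈ Lk N).card = 2 ^ k := card_sub (Lk N)
  have hCrit : (univ.filter fun v : V → ZMod 2 => IsLk N v).card = 2 ^ k := hLk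
  have hgl : (0 : ℝ) < gl r := by exact_mod_cast gl_pos r
  rcases Nat.lt_or_ge k (r + 1) with hkr | hkr
  · -- the left kernel is too small
    have h0 : ∀ i, Tn w e N r i j = 0 := by
      intro i
      rw [Tn_eq w e N hw, card_eq_zero]
      apply filter_eq_empty_iff.2
      rintro y - ⟨h1, h2, -⟩
      have h3 := card_bas hwL h1 h2
      rw [hLk] at h3
      have h4 := (Nat.pow_le_pow_iff_right (show 1 < 2 by norm_num)).1 h3
      omega
    have hC : ¬ Crit N e r j := by
      rintro ⟨h1, -⟩
      rw [hCrit] at h1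
      have := Nat.pow_right_injective (le_refl 2) h1
      omega
    rw [if_neg hC]
    simp only [h0, Nat.cast_zero, mul_zero, zero_div, sum_const_zero, sub_self, abs_zero, le_refl]
  · set X : ℝ := 2 ^ (k - (r + 1)) with hX
    set c : ℝ := (Tn w e N r 0 j : ℝ) / (2 ^ r * gl r) with hc
    have hc0 : 0 ≤ c := by positivity
    have hT : ∀ i, (Tn w e N r i j : ℝ) / cf r i =
        c * ((∏ l ∈ range i, (X - 2 ^ l)) / qf i) := by
      intro i
      rw [Tn_prod w e N hw hwL, hLk, Nat.cast_mul, prod_real k r hkr i, cf_eq, hc]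
      have h1 := (qf_pos i).ne'
      have h2 : (2 : ℝ) ^ ((r + 1) * i) ≠ 0 := by positivity
      rw [← hX]
      field_simp
    have hsum : ∑ i ∈ range (m + 1), (-1) ^ i * (Tn w e N r i j : ℝ) / cf r i =
        c * ∑ i ∈ range (m + 1), (-1) ^ i * ((∏ l ∈ range i, (X - 2 ^ l)) / qf i) := by
      rw [mul_sum]
      apply sum_congr rfl
      intro i _
      rw [mul_div_assoc, hT]
      ring
    rw [hsum, hT (m + 1)]
    rcases hkr.eq_or_lt with hkr' | hkr'
    · -- the critical case
      have hX1 : X = 1 := by rw [hX, ← hkr', Nat.sub_self, pow_zero]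
      have hA : ∀ i, 1 ≤ i → ∏ l ∈ range i, (X - 2 ^ l) = 0 := by
        intro i hi
        apply prod_eq_zero (i := 0) (mem_range.2 hi)
        rw [hX1, pow_zero, sub_self]
      have hs : ∑ i ∈ range (m + 1), (-1) ^ i * ((∏ l ∈ range i, (X - 2 ^ l)) / qf i) = 1 := by
        rw [sum_eq_single 0]
        · rw [qf_zero]; simp
        · intro i _ hi
          rw [hA i (by omega)]; simp
        · intro h
          exact absurd (mem_range.2 (Nat.succ_pos m)) h
      rw [hs, hA (m + 1) (by omega), zero_div, mul_zero, mul_one]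
      have hL : (univ.filter fun v : V → ZMod 2 => v ∈ Lk N).card = 2 ^ (r + 1) := by
        rw [hLk, ← hkr']
      have hcc : (if Crit N e r j then (1 : ℝ) else 0) = c := by
        rw [hc, Tn_crit hw hrad hL]
        by_cases h : (univ.filter fun v : V → ZMod 2 => IsRad N e v).card = 2 ^ (j + 1)
        · rw [if_pos h, if_pos ⟨by rw [hCrit, ← hkr'], h⟩]
          push_cast
          rw [div_self]
          positivity
        · rw [if_neg h, if_neg (fun h' => h h'.2)]
          simp
      rw [hcc, sub_self, abs_zero]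
    · -- the left kernel is too large
      have hC : ¬ Crit N e r j := by
        rintro ⟨h1, -⟩
        rw [hCrit] at h1
        have := Nat.pow_right_injective (le_refl 2) h1
        omega
      rw [if_neg hC, alt_sum qf qf_zero qf_succ qf_pos X m, zero_sub, abs_neg, abs_mul,
        abs_of_nonneg hc0]
      apply mul_le_mul_of_nonneg_left _ hc0
      rw [abs_mul, abs_pow, abs_neg, abs_one, one_pow, one_mul, abs_div, abs_of_pos (qf_pos m)]
      rw [prod_range_succ' (fun l => X - 2 ^ l) m, pow_zero, qf_succ]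
      rcases Nat.lt_or_ge m (k - (r + 1)) with hm | hm
      · have hpos : ∀ l ∈ range m, 0 < X - 2 ^ (l + 1) := by
          intro l hl
          have h1 := mem_range.1 hl
          have : (2 : ℝ) ^ (l + 1) < 2 ^ (k - (r + 1)) :=
            pow_lt_pow_right₀ (by norm_num) (by omega)
          rw [hX]; linarith
        have hP := prod_pos hpos
        rw [abs_of_pos hP]
        have hX2 : (2 : ℝ) ^ (m + 1) ≤ X := by
          rw [hX]; exact pow_le_pow_right₀ (by norm_num) (by omega)
        rw [div_le_div_iff₀ (qf_pos m) (mul_pos (qf_pos m) (two_pow_sub m))]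
        have h3 : (2 : ℝ) ^ (m + 1) - 1 ≤ X - 1 := by linarith
        have h4 := mul_le_mul_of_nonneg_left h3 (mul_nonneg hP.le (qf_pos m).le)
        nlinarith [h4]
      · have hz : ∏ l ∈ range m, (X - 2 ^ (l + 1)) = 0 := by
          apply prod_eq_zero (i := k - (r + 1) - 1)
          · rw [mem_range]; omega
          · rw [hX, show k - (r + 1) - 1 + 1 = k - (r + 1) by omega, sub_self]
        rw [hz]
        simp

end Pool.Agent.N608.SLX
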